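import Pool.Agent.Helper35_XQ.Stmt
import Pool.Agent.Helper44_BLK.Lab

/-!
Squad XQ (MP_5b0138_an), Part A2, module ORD: the kernels with words.
-/

set_option autoImplicit false

namespace Pool.Agent.XQ.GI.H68

open MeasureTheory Complex Filter Topology Pool.Agent.H62T Pool.Agent.H60K
open scoped ENNReal NNReal

variable {u : Fin 3 → ℂ} {h : Fin 3 → ℝ}

theorem ko_tendsto (hklm : KlmStatement) (f : Lb) {t : ℝ} (ht : 0 < t) (x y : ℂ) :
    Tendsto (fun m => KF u h m f t x y) atTop (𝓝 (KO u h f t x y)) := by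
  obtain ⟨l, hl⟩ := hklm u h f t x y ht
  have e : KO u h f t x y = l := by
    unfold KO
    rw [if_pos ht]
    exact hl.limUnder_eq
  rw [e]
  exact hl

theorem ko_meas (hkfb : KfbStatement) (hklm : KlmStatement) (f : Lb) :
    Measurable (fun p : ℝ × ℂ × ℂ => KO u h f p.1 p.2.1 p.2.2) := by
  have h1 : ∀ m, Measurable (fun p : ℝ × ℂ × ℂ =>
      if 0 < p.1 then KF u h m f p.1 p.2.1 p.2.2 else 0) := fun m =>
    Measurable.ite (measurableSet_lt measurable_const measurable_fst)
      ((hkfb u h m).1 f) measurable_const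
  refine measurable_of_tendsto_metrizable h1 (tendsto_pi_nhds.2 fun p => ?_)
  by_cases hp : 0 < p.1
  · simp only [if_pos hp]
    exact ko_tendsto hklm f hp _ _
  · have e : KO u h f p.1 p.2.1 p.2.2 = 0 := by
      unfold KO
      rw [if_neg hp]
    simp only [if_neg hp, e]
    exact tendsto_const_nhds

/-- a kernel is at most the kernel of the plane -/
theorem kf_le (hkfb : KfbStatement) (m : ℕ) (f : Lb) {t : ℝ} (ht : 0 < t) (x y : ℂ) :
    KF u h m f t x y ≤ G t (x - y) := by
  have h1 := (hkfb u h m).2 t x y ht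
  rw [← h1.2.2.1]
  exact Finset.single_le_sum (f := fun f => KF u h m f t x y) (fun f _ => h1.1 f)
    (Finset.mem_univ f)

theorem kf_meas_l (hkfb : KfbStatement) (m : ℕ) (f : Lb) (t : ℝ) (y : ℂ) :
    Measurable fun z => KF u h m f t z y :=
  ((hkfb u h m).1 f).comp (measurable_const.prodMk (measurable_id.prodMk measurable_const))

theorem kf_meas_r (hkfb : KfbStatement) (m : ℕ) (f : Lb) (t : ℝ) (x : ℂ) :
    Measurable fun z => KF u h m f t x z :=
  ((hkfb u h m).1 f).comp (measurable_const.prodMk (measurable_const.prodMk measurable_id))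

theorem ko_step (hkfb : KfbStatement) (hklm : KlmStatement) (f : Lb) {t : ℝ} (ht : 0 < t)
    (x y : ℂ) : KO u h f t x y = ∑ f₁ : Lb, ∑ f₂ : Lb, if f = (fun w => f₂ (f₁ w)) then
      ∫ z, KO u h f₁ (t / 2) x z * KO u h f₂ (t / 2) z y else 0 := by
  have h2 : 0 < t / 2 := half_pos ht
  have hA := (tendsto_add_atTop_iff_nat 1).2 (ko_tendsto (u := u) (h := h) hklm f ht x y)
  have hB : Tendsto (fun m => KF u h (m + 1) f t x y) atTop
      (𝓝 (∑ f₁ : Lb, ∑ f₂ : Lb, if f = (fun w => f₂ (f₁ w)) then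
      ∫ z, KO u h f₁ (t / 2) x z * KO u h f₂ (t / 2) z y else 0)) := by
    show Tendsto (fun m => ∑ f₁ : Lb, ∑ f₂ : Lb, if f = (fun w => f₂ (f₁ w)) then
      ∫ z, KF u h m f₁ (t / 2) x z * KF u h m f₂ (t / 2) z y else 0) atTop _
    refine tendsto_finsetSum _ fun f₁ _ => tendsto_finsetSum _ fun f₂ _ => ?_
    split_ifs
    · refine tendsto_integral_of_dominated_convergence
        (fun z => G (t / 2) (x - z) * G (t / 2) (z - y)) ?_ (AEU.H44.G_int2 h2 h2 x y) ?_ ?_
      · intro m
        exact ((kf_meas_r hkfb m f₁ (t / 2) x).mul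
          (kf_meas_l hkfb m f₂ (t / 2) y)).aestronglyMeasurable
      · intro m
        refine Eventually.of_forall fun z => ?_
        have e1 := ((hkfb u h m).2 (t / 2) x z h2).1 f₁
        have e2 := ((hkfb u h m).2 (t / 2) z y h2).1 f₂
        rw [Real.norm_of_nonneg (mul_nonneg e1 e2)]
        exact mul_le_mul (kf_le hkfb m f₁ h2 x z) (kf_le hkfb m f₂ h2 z y) e2
          (AEU.H44.G_nonneg h2 _)
      · exact Eventually.of_forall fun z =>
          (ko_tendsto hklm f₁ h2 x z).mul (ko_tendsto hklm f₂ h2 z y)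
    · exact tendsto_const_nhds
  exact tendsto_nhds_unique hA hB

theorem pB_ko (hkfb : KfbStatement) (hklm : KlmStatement) (B : Finset (Fin 3)) {t : ℝ}
    (ht : 0 < t) (x y : ℂ) :
    pB u h B t x y = ∑ f : Lb, if Disjoint (vs f) B then KO u h f t x y else 0 := by
  have hA : Tendsto (fun m => Ker (Dm u h B) m t x y) atTop (𝓝 (pB u h B t x y)) :=
    Pool.Agent.H16F.H8.pD_tendsto (Pool.Agent.H60K.H44.dm_open u h B) ht x y
  have hB : Tendsto (fun m => Ker (Dm u h B) m t x y) atTop
      (𝓝 (∑ f : Lb, if Disjoint (vs f) B then KO u h f t x y else 0)) := by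
    have e : (fun m => Ker (Dm u h B) m t x y) = fun m =>
        ∑ f : Lb, if Disjoint (vs f) B then KF u h m f t x y else 0 := by
      funext m
      rw [((hkfb u h m).2 t x y ht).2.2.2 B]
    rw [e]
    refine tendsto_finsetSum _ fun f _ => ?_
    split_ifs
    · exact ko_tendsto hklm f ht x y
    · exact tendsto_const_nhds
  exact tendsto_nhds_unique hA hB

/-- module ORD -/
theorem ord (hkfb : KfbStatement) (hklm : KlmStatement) : OrdStatement := by
  intro u h _
  refine ⟨fun f => ko_meas hkfb hklm f, fun t x y ht => ⟨fun f => ko_tendsto hklm f ht x y,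
    fun f => ?_, fun f hf => ?_, ?_, fun f => ?_, fun A => ?_⟩⟩
  · exact ge_of_tendsto' (ko_tendsto hklm f ht x y) fun m => ((hkfb u h m).2 t x y ht).1 f
  · by_contra hc
    apply hf
    have e : (fun m => KF u h m f t x y) = fun _ => 0 := by
      funext m
      by_contra h0
      exact hc (((hkfb u h m).2 t x y ht).2.1 f h0)
    have := ko_tendsto (u := u) (h := h) hklm f ht x y
    rw [e] at this
    exact (tendsto_nhds_unique this tendsto_const_nhds)
  · have h1 : Tendsto (fun m => ∑ f : Lb, KF u h m f t x y) atTop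
        (𝓝 (∑ f : Lb, KO u h f t x y)) :=
      tendsto_finsetSum _ fun f _ => ko_tendsto hklm f ht x y
    have e : (fun m => ∑ f : Lb, KF u h m f t x y) = fun _ => G t (x - y) :=
      funext fun m => ((hkfb u h m).2 t x y ht).2.2.1
    rw [e] at h1
    exact tendsto_nhds_unique h1 tendsto_const_nhds
  · exact ko_step hkfb hklm f ht x y
  · have e1 : kA u h A t x y = Pool.Agent.H60K.H44.mob (fun B => pB u h B t x y) A := rfl
    rw [e1]
    have e2 : (fun B => pB u h B t x y) = fun B : Finset (Fin 3) =>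
        ∑ A' ∈ Bᶜ.powerset, ∑ f : Lb, if vs f = A' then KO u h f t x y else 0 := by
      funext B
      rw [pB_ko hkfb hklm B ht x y, Finset.sum_comm]
      refine Finset.sum_congr rfl fun f _ => ?_
      rw [Finset.sum_ite_eq]
      refine if_congr ?_ rfl rfl
      rw [Finset.mem_powerset, Finset.subset_compl_iff_disjoint_right]
    rw [e2, Pool.Agent.H60K.H44.mob_zeta]

end Pool.Agent.XQ.GI.H68
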