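import Pool.Agent.Helper35_XQ.Stmt
import Pool.Agent.Helper44_BLK.Lab

/-!
Squad XQ (MP_5b0138_an), Part A2, module UPO: bounds of the kernels from above.
-/

set_option autoImplicit false

namespace Pool.Agent.XQ.GI.H68

open MeasureTheory Complex Filter Topology Pool.Agent.H62T Pool.Agent.H60K
open scoped ENNReal NNReal

variable {u : Fin 3 → ℂ} {h : Fin 3 → ℝ}

/-! ### Foldings -/

theorem G_mono {s : ℝ} (hs : 0 < s) {z z' : ℂ} (hz : ‖z‖ ≤ ‖z'‖) : G s z' ≤ G s z := by
  unfold G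
  have h1 : ‖z‖ ^ 2 ≤ ‖z'‖ ^ 2 := pow_le_pow_left₀ (norm_nonneg _) hz 2
  have h2 : 0 < 4 * Real.pi * s := by positivity
  rw [div_le_div_iff_of_pos_right h2, Real.exp_le_exp, div_le_div_iff_of_pos_right (by positivity)]
  linarith

theorem fo1_near (hu : ∀ s, ‖u s‖ = 1) {s : Fin 3} {y : ℂ} (hy : h s ≤ ip (u s) y) (c : ℂ) :
    ‖y - fo1 u h s c‖ ≤ ‖y - c‖ := by
  unfold fo1
  split_ifs with hc
  · exact le_rfl
  · rw [not_le] at hc
    have hu1 : (u s).re * (u s).re + (u s).im * (u s).im = 1 := by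
      have := congrArg (· ^ 2) (hu s)
      simp only [Complex.sq_norm, Complex.normSq_apply] at this
      linarith
    rw [← sq_le_sq₀ (norm_nonneg _) (norm_nonneg _), Complex.sq_norm, Complex.sq_norm,
      Complex.normSq_apply, Complex.normSq_apply]
    have e1 : (rf u h s c).re = c.re - 2 * (ip (u s) c - h s) * (u s).re := by
      simp [rf]
    have e2 : (rf u h s c).im = c.im - 2 * (ip (u s) c - h s) * (u s).im := by
      simp [rf]
    rw [Complex.sub_re, Complex.sub_im, Complex.sub_re, Complex.sub_im, e1, e2]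
    have h1 : (ip (u s) c - h s) * (ip (u s) y - h s) ≤ 0 :=
      mul_nonpos_of_nonpos_of_nonneg (by linarith) (by linarith)
    have h2 : (y.re - (c.re - 2 * (ip (u s) c - h s) * (u s).re))
          * (y.re - (c.re - 2 * (ip (u s) c - h s) * (u s).re))
        + (y.im - (c.im - 2 * (ip (u s) c - h s) * (u s).im))
          * (y.im - (c.im - 2 * (ip (u s) c - h s) * (u s).im))
        = (y.re - c.re) * (y.re - c.re) + (y.im - c.im) * (y.im - c.im)
          + 4 * ((ip (u s) c - h s) * (ip (u s) y - h s)) := by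
      have e3 : ip (u s) y = (u s).re * y.re + (u s).im * y.im := rfl
      have e4 : ip (u s) c = (u s).re * c.re + (u s).im * c.im := rfl
      rw [e3]
      linear_combination 4 * (ip (u s) c - h s) ^ 2 * hu1 + 4 * (ip (u s) c - h s) * e4
    rw [h2]
    linarith

theorem mem_lb {s : Fin 3} {y : ℂ} : s ∈ lb u h y ↔ h s ≤ ip (u s) y := by
  simp [lb]

theorem fo_rd (hu : ∀ s, ‖u s‖ = 1) (w : Wd) (y x : ℂ) :
    ‖y - fo u h w.1 x‖ ≤ ‖y - fo u h (rd (lb u h y) w).1 x‖ := by
  obtain ⟨w, hw⟩ := w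
  show ‖y - fo u h w x‖ ≤ ‖y - fo u h (w.dropWhile (fun s => decide (s ∈ lb u h y))) x‖
  clear hw
  induction w with
  | nil => exact le_rfl
  | cons s w ih =>
    by_cases hs : s ∈ lb u h y
    · rw [List.dropWhile_cons_of_pos (by simpa using hs)]
      refine le_trans ?_ ih
      show ‖y - fo1 u h s (fo u h w x)‖ ≤ ‖y - fo u h w x‖
      exact fo1_near hu (mem_lb.1 hs) _
    · rw [List.dropWhile_cons_of_neg (by simpa using hs)]

theorem fo_fix {w : Wd} {x : ℂ} (hw : rd (lb u h x) w = em) : fo u h w.1 x = x := by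
  obtain ⟨w, hn⟩ := w
  have h1 : w.dropWhile (fun s => decide (s ∈ lb u h x)) = [] := congrArg Subtype.val hw
  rw [List.dropWhile_eq_nil_iff] at h1
  show fo u h w x = x
  clear hw hn
  induction w with
  | nil => rfl
  | cons s w ih =>
    have h2 := h1 s List.mem_cons_self
    have h3 : s ∈ lb u h x := by simpa using h2
    show fo1 u h s (fo u h w x) = x
    rw [ih fun r hr => h1 r (List.mem_cons_of_mem _ hr)]
    unfold fo1
    rw [if_pos (mem_lb.1 h3)]

/-! ### Kernels below the kernel of the plane -/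

/-- measurable kernel below the kernel of the plane -/
def Sub (r : ℝ) (K : ℂ → ℂ → ℝ) : Prop :=
  Measurable (Function.uncurry K) ∧ ∀ x y, 0 ≤ K x y ∧ K x y ≤ G r (x - y)

theorem Sub.meas_r {r : ℝ} {K : ℂ → ℂ → ℝ} (hK : Sub r K) (x : ℂ) : Measurable fun y => K x y :=
  hK.1.comp measurable_prodMk_left

theorem Sub.meas_l {r : ℝ} {K : ℂ → ℂ → ℝ} (hK : Sub r K) (y : ℂ) : Measurable fun x => K x y :=
  hK.1.comp measurable_prodMk_right

theorem G_meas (s : ℝ) (c : ℂ) : Measurable fun y : ℂ => G s (y - c) :=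
  (H41.G_cont _).measurable.comp (measurable_id.sub measurable_const)

theorem sub_G {r : ℝ} (hr : 0 < r) : Sub r (fun x y => G r (x - y)) :=
  ⟨(H41.G_cont _).measurable.comp (measurable_fst.sub measurable_snd),
    fun _ _ => ⟨AEU.H44.G_nonneg hr _, le_rfl⟩⟩

theorem Sub.int {r s : ℝ} (hr : 0 < r) (hs : 0 < s) {K : ℂ → ℂ → ℝ} (hK : Sub r K)
    {φ : ℂ → ℝ} (hφ : Measurable φ) {c : ℂ} (h2 : ∀ y, 0 ≤ φ y ∧ φ y ≤ G s (y - c)) (z : ℂ) :
    Integrable fun y => K z y * φ y := by
  refine (AEU.H44.G_int2 hr hs z c).mono' ((hK.meas_r z).mul hφ).aestronglyMeasurable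
    (Eventually.of_forall fun y => ?_)
  have f1 := hK.2 z y
  have f2 := h2 y
  rw [Real.norm_of_nonneg (mul_nonneg f1.1 f2.1)]
  exact mul_le_mul f1.2 f2.2 f2.1 (f1.1.trans f1.2)

theorem Sub.comp {r s : ℝ} (hr : 0 < r) (hs : 0 < s) {K L : ℂ → ℂ → ℝ} (hK : Sub r K)
    (hL : Sub s L) : Sub (r + s) (fun x y => ∫ z, K x z * L z y) := by
  refine ⟨?_, fun x y => ⟨integral_nonneg fun z => mul_nonneg (hK.2 x z).1 (hL.2 z y).1, ?_⟩⟩
  · have hm : Measurable fun p : (ℂ × ℂ) × ℂ => K p.1.1 p.2 * L p.2 p.1.2 :=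
      (hK.1.comp ((measurable_fst.comp measurable_fst).prodMk measurable_snd)).mul
        (hL.1.comp (measurable_snd.prodMk (measurable_snd.comp measurable_fst)))
    exact (hm.stronglyMeasurable.integral_prod_right' (ν := volume)).measurable
  · rw [← AEU.H44.G_ck hr hs x y]
    exact integral_mono (hK.int hr hs (hL.meas_l y) (c := y) (fun z => hL.2 z y) x)
      (AEU.H44.G_int2 hr hs x y) fun z => mul_le_mul (hK.2 x z).2 (hL.2 z y).2 (hL.2 z y).1
        (AEU.H44.G_nonneg hr _)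

/-- three kernels -/
theorem Sub.fub {r s t : ℝ} (hr : 0 < r) (hs : 0 < s) (ht : 0 < t) {K L : ℂ → ℂ → ℝ}
    (hK : Sub r K) (hL : Sub s L) {φ : ℂ → ℝ} (hφ : Measurable φ) {c : ℂ}
    (h2 : ∀ y, 0 ≤ φ y ∧ φ y ≤ G t (y - c)) (x : ℂ) :
    ∫ y, (∫ z, K x z * L z y) * φ y = ∫ z, K x z * ∫ y, L z y * φ y :=
  AEU.H44.fub hr hs ht x c (hK.meas_r x) hL.1 hφ (fun w => hK.2 x w) (fun w z => hL.2 w z) h2

theorem sub_KF (hkfb : KfbStatement) (m : ℕ) (f : Lb) {t : ℝ} (ht : 0 < t) :
    Sub t (KF u h m f t) := by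
  refine ⟨((hkfb u h m).1 f).comp (measurable_const.prodMk measurable_id), fun x y => ?_⟩
  have h1 := (hkfb u h m).2 t x y ht
  refine ⟨h1.1 f, ?_⟩
  rw [← h1.2.2.1]
  exact Finset.single_le_sum (f := fun f => KF u h m f t x y) (fun f _ => h1.1 f)
    (Finset.mem_univ f)

theorem sub_KO (hord : OrdStatement) (hu : ∀ s, ‖u s‖ = 1) (f : Lb) {t : ℝ} (ht : 0 < t) :
    Sub t (KO u h f t) := by
  refine ⟨((hord u h hu).1 f).comp (measurable_const.prodMk measurable_id), fun x y => ?_⟩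
  have h1 := (hord u h hu).2 t x y ht
  refine ⟨h1.2.1 f, ?_⟩
  rw [← h1.2.2.2.1]
  exact Finset.single_le_sum (f := fun f => KO u h f t x y) (fun f _ => h1.2.1 f)
    (Finset.mem_univ f)

/-! ### Bounds of the chains -/

theorem G_bd {s : ℝ} (hs : 0 < s) (c y : ℂ) : 0 ≤ G s (y - c) ∧ G s (y - c) ≤ G s (y - c) :=
  ⟨AEU.H44.G_nonneg hs _, le_rfl⟩

open Classical in
theorem sum_comp (I : Lb → Lb → ℝ) (g : Lb → ℝ) :
    ∑ f : Lb, (∑ f₁ : Lb, ∑ f₂ : Lb, if f = (fun w => f₂ (f₁ w)) then I f₁ f₂ else 0) * g f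
      = ∑ f₁ : Lb, ∑ f₂ : Lb, I f₁ f₂ * g (fun w => f₂ (f₁ w)) := by
  simp only [Finset.sum_mul]
  rw [Finset.sum_comm]
  refine Finset.sum_congr rfl fun f₁ _ => ?_
  rw [Finset.sum_comm]
  refine Finset.sum_congr rfl fun f₂ _ => ?_
  simp only [ite_mul, zero_mul]
  rw [Finset.sum_ite_eq', if_pos (Finset.mem_univ _)]

theorem stepA (hkfb : KfbStatement) (hu : ∀ s, ‖u s‖ = 1) (m : ℕ) : ∀ a s : ℝ, 0 < a → 0 < s →
    ∀ (w : Wd) (z x : ℂ), ∑ f : Lb, ∫ y, KF u h m f a z y * G s (y - fo u h (f w).1 x)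
      ≤ G (a + s) (z - fo u h w.1 x) := by
  induction m with
  | zero =>
    intro a s ha hs w z x
    have hi : ∀ f : Lb, Integrable fun y => KF u h 0 f a z y * G s (y - fo u h (f w).1 x) :=
      fun f => (sub_KF hkfb 0 f ha).int ha hs (G_meas s _) (fun y => G_bd hs _ y) z
    rw [← integral_finsetSum _ fun f _ => hi f]
    have e : ∀ y, ∑ f : Lb, KF u h 0 f a z y * G s (y - fo u h (f w).1 x)
        = G a (z - y) * G s (y - fo u h (rd (lb u h y) (rd (lb u h z) w)).1 x) := by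
      intro y
      simp only [KF, ite_mul, zero_mul]
      rw [Finset.sum_ite_eq', if_pos (Finset.mem_univ _)]
    calc ∫ y, ∑ f : Lb, KF u h 0 f a z y * G s (y - fo u h (f w).1 x)
        ≤ ∫ y, G a (z - y) * G s (y - fo u h (rd (lb u h z) w).1 x) := by
          refine integral_mono (integrable_finsetSum _ fun f _ => hi f)
            (AEU.H44.G_int2 ha hs z _) fun y => ?_
          show ∑ f : Lb, KF u h 0 f a z y * G s (y - fo u h (f w).1 x) ≤ _
          rw [e y]
          exact mul_le_mul_of_nonneg_left (G_mono hs (fo_rd hu _ y x)) (AEU.H44.G_nonneg ha _)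
      _ = G (a + s) (z - fo u h (rd (lb u h z) w).1 x) := AEU.H44.G_ck ha hs z _
      _ ≤ _ := G_mono (by positivity) (fo_rd hu _ z x)
  | succ m ih =>
    intro a s ha hs w z x
    have h2 : 0 < a / 2 := half_pos ha
    have hS : ∀ f₁ f₂ : Lb, Sub (a / 2 + a / 2)
        (fun z y => ∫ z', KF u h m f₁ (a / 2) z z' * KF u h m f₂ (a / 2) z' y) := fun f₁ f₂ =>
      (sub_KF hkfb m f₁ h2).comp h2 h2 (sub_KF hkfb m f₂ h2)
    rw [← integral_finsetSum _ fun f _ =>
      (sub_KF hkfb (m + 1) f ha).int ha hs (G_meas s _) (fun y => G_bd hs _ y) z]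
    have e : ∀ y, ∑ f : Lb, KF u h (m + 1) f a z y * G s (y - fo u h (f w).1 x)
        = ∑ f₁ : Lb, ∑ f₂ : Lb, (∫ z', KF u h m f₁ (a / 2) z z' * KF u h m f₂ (a / 2) z' y)
          * G s (y - fo u h (f₂ (f₁ w)).1 x) := fun y =>
      sum_comp (fun f₁ f₂ => ∫ z', KF u h m f₁ (a / 2) z z' * KF u h m f₂ (a / 2) z' y)
        (fun f => G s (y - fo u h (f w).1 x))
    simp only [e]
    have hi2 : ∀ f₁ f₂ : Lb, Integrable fun y =>
        (∫ z', KF u h m f₁ (a / 2) z z' * KF u h m f₂ (a / 2) z' y)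
          * G s (y - fo u h (f₂ (f₁ w)).1 x) := fun f₁ f₂ =>
      (hS f₁ f₂).int (by positivity) hs (G_meas s _) (fun y => G_bd hs _ y) z
    rw [integral_finsetSum _ fun f₁ _ => integrable_finsetSum _ fun f₂ _ => hi2 f₁ f₂]
    have e3 : ∀ f₁ : Lb, ∫ y, ∑ f₂ : Lb, (∫ z', KF u h m f₁ (a / 2) z z'
          * KF u h m f₂ (a / 2) z' y) * G s (y - fo u h (f₂ (f₁ w)).1 x)
        = ∑ f₂ : Lb, ∫ z', KF u h m f₁ (a / 2) z z'
          * ∫ y, KF u h m f₂ (a / 2) z' y * G s (y - fo u h (f₂ (f₁ w)).1 x) := by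
      intro f₁
      rw [integral_finsetSum _ fun f₂ _ => hi2 f₁ f₂]
      exact Finset.sum_congr rfl fun f₂ _ => (sub_KF hkfb m f₁ h2).fub h2 h2 hs
        (sub_KF hkfb m f₂ h2) (G_meas s _) (fun y => G_bd hs _ y) z
    have hin : ∀ f₁ f₂ : Lb, Sub (a / 2 + s) (fun z' c =>
        ∫ y, KF u h m f₂ (a / 2) z' y * G s (y - c)) := fun f₁ f₂ =>
      (sub_KF hkfb m f₂ h2).comp h2 hs (sub_G hs)
    have hi4 : ∀ f₁ f₂ : Lb, Integrable fun z' => KF u h m f₁ (a / 2) z z'
          * ∫ y, KF u h m f₂ (a / 2) z' y * G s (y - fo u h (f₂ (f₁ w)).1 x) := fun f₁ f₂ =>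
      (sub_KF hkfb m f₁ h2).int h2 (by positivity : 0 < a / 2 + s) ((hin f₁ f₂).meas_l _)
        (fun z' => (hin f₁ f₂).2 z' (fo u h (f₂ (f₁ w)).1 x)) z
    calc ∑ f₁ : Lb, ∫ y, ∑ f₂ : Lb, (∫ z', KF u h m f₁ (a / 2) z z'
          * KF u h m f₂ (a / 2) z' y) * G s (y - fo u h (f₂ (f₁ w)).1 x)
        ≤ ∑ f₁ : Lb, ∫ z', KF u h m f₁ (a / 2) z z' * G (a / 2 + s) (z' - fo u h (f₁ w).1 x) := by
          refine Finset.sum_le_sum fun f₁ _ => ?_
          rw [e3 f₁, ← integral_finsetSum _ fun f₂ _ => hi4 f₁ f₂]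
          refine integral_mono (integrable_finsetSum _ fun f₂ _ => hi4 f₁ f₂)
            ((sub_KF hkfb m f₁ h2).int h2 (by positivity : 0 < a / 2 + s) (G_meas _ _)
              (fun y => G_bd (by positivity) _ y) z) fun z' => ?_
          show ∑ f₂ : Lb, KF u h m f₁ (a / 2) z z'
            * ∫ y, KF u h m f₂ (a / 2) z' y * G s (y - fo u h (f₂ (f₁ w)).1 x) ≤ _
          rw [← Finset.mul_sum]
          exact mul_le_mul_of_nonneg_left (ih (a / 2) s h2 hs (f₁ w) z' x)
            ((sub_KF hkfb m f₁ h2).2 z z').1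
      _ ≤ G (a / 2 + (a / 2 + s)) (z - fo u h w.1 x) :=
          ih (a / 2) (a / 2 + s) h2 (by positivity) w z x
      _ = _ := by
          congr 1
          ring

open Classical in
theorem stepB (hkfb : KfbStatement) (hu : ∀ s, ‖u s‖ = 1) (m : ℕ) : ∀ a : ℝ, 0 < a →
    ∀ (w : Wd) (z x : ℂ), (∑ f : Lb, if f w = em then KF u h m f a z x else 0)
      ≤ G a (z - fo u h w.1 x) := by
  induction m with
  | zero =>
    intro a ha w z x
    have e : (∑ f : Lb, if f w = em then KF u h 0 f a z x else 0)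
        = if rd (lb u h x) (rd (lb u h z) w) = em then G a (z - x) else 0 := by
      rw [Finset.sum_eq_single (fun w => rd (lb u h x) (rd (lb u h z) w))]
      · simp only [KF, if_true]
      · intro f _ hf
        simp only [KF, if_neg hf, ite_self]
      · intro hc
        exact absurd (Finset.mem_univ _) hc
    rw [e]
    split_ifs with hc
    · refine G_mono ha ?_
      have := fo_rd (h := h) hu w z x
      rwa [fo_fix hc] at this
    · exact AEU.H44.G_nonneg ha _
  | succ m ih =>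
    intro a ha w z x
    have h2 : 0 < a / 2 := half_pos ha
    have e : (∑ f : Lb, if f w = em then KF u h (m + 1) f a z x else 0)
        = ∑ f₁ : Lb, ∑ f₂ : Lb, (∫ z', KF u h m f₁ (a / 2) z z' * KF u h m f₂ (a / 2) z' x)
          * (if f₂ (f₁ w) = em then 1 else 0) := by
      have := sum_comp (fun f₁ f₂ => ∫ z', KF u h m f₁ (a / 2) z z' * KF u h m f₂ (a / 2) z' x)
        (fun f => if f w = em then 1 else 0)
      rw [← this]
      refine Finset.sum_congr rfl fun f _ => ?_
      rw [mul_ite, mul_one, mul_zero]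
      rfl
    rw [e]
    refine le_trans (Finset.sum_le_sum (g := fun f₁ : Lb => ∫ z', KF u h m f₁ (a / 2) z z'
      * G (a / 2) (z' - fo u h (f₁ w).1 x)) fun f₁ _ => ?_) ?_
    · have hi : ∀ f₂ : Lb, Integrable fun z' => KF u h m f₁ (a / 2) z z'
          * (if f₂ (f₁ w) = em then KF u h m f₂ (a / 2) z' x else 0) := by
        intro f₂
        split_ifs
        · exact (sub_KF hkfb m f₁ h2).int h2 h2 ((sub_KF hkfb m f₂ h2).meas_l x)
            (fun z' => (sub_KF hkfb m f₂ h2).2 z' x) z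
        · simp
      have e2 : ∀ f₂ : Lb, (∫ z', KF u h m f₁ (a / 2) z z' * KF u h m f₂ (a / 2) z' x)
          * (if f₂ (f₁ w) = em then 1 else 0) = ∫ z', KF u h m f₁ (a / 2) z z'
          * (if f₂ (f₁ w) = em then KF u h m f₂ (a / 2) z' x else 0) := by
        intro f₂
        split_ifs <;> simp
      simp only [e2]
      rw [← integral_finsetSum _ fun f₂ _ => hi f₂]
      refine integral_mono (integrable_finsetSum _ fun f₂ _ => hi f₂)
        ((sub_KF hkfb m f₁ h2).int h2 h2 (G_meas _ _) (fun y => G_bd h2 _ y) z) fun z' => ?_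
      show ∑ f₂ : Lb, KF u h m f₁ (a / 2) z z'
          * (if f₂ (f₁ w) = em then KF u h m f₂ (a / 2) z' x else 0) ≤ _
      rw [← Finset.mul_sum]
      exact mul_le_mul_of_nonneg_left (ih (a / 2) h2 (f₁ w) z' x)
        ((sub_KF hkfb m f₁ h2).2 z z').1
    · have := stepA (h := h) hkfb hu m (a / 2) (a / 2) h2 h2 w z x
      rwa [add_halves] at this

/-! ### Limits -/

theorem limA (hkfb : KfbStatement) (hord : OrdStatement) (hu : ∀ s, ‖u s‖ = 1) {a s : ℝ}
    (ha : 0 < a) (hs : 0 < s) (w : Wd) (z x : ℂ) :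
    ∑ f : Lb, ∫ y, KO u h f a z y * G s (y - fo u h (f w).1 x)
      ≤ G (a + s) (z - fo u h w.1 x) := by
  have h1 : Tendsto (fun m => ∑ f : Lb, ∫ y, KF u h m f a z y * G s (y - fo u h (f w).1 x)) atTop
      (𝓝 (∑ f : Lb, ∫ y, KO u h f a z y * G s (y - fo u h (f w).1 x))) := by
    refine tendsto_finsetSum _ fun f _ => ?_
    refine tendsto_integral_of_dominated_convergence
      (fun y => G a (z - y) * G s (y - fo u h (f w).1 x)) ?_ (AEU.H44.G_int2 ha hs z _) ?_ ?_
    · intro m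
      exact (((sub_KF hkfb m f ha).meas_r z).mul (G_meas _ _)).aestronglyMeasurable
    · intro m
      refine Eventually.of_forall fun y => ?_
      have e1 := (sub_KF (u := u) (h := h) hkfb m f ha).2 z y
      have e2 := AEU.H44.G_nonneg hs (y - fo u h (f w).1 x)
      rw [Real.norm_of_nonneg (mul_nonneg e1.1 e2)]
      exact mul_le_mul_of_nonneg_right e1.2 e2
    · exact Eventually.of_forall fun y =>
        (((hord u h hu).2 a z y ha).1 f).mul_const _
  exact le_of_tendsto' h1 fun m => stepA hkfb hu m a s ha hs w z x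

open Classical in
theorem limB (hkfb : KfbStatement) (hord : OrdStatement) (hu : ∀ s, ‖u s‖ = 1) {a : ℝ}
    (ha : 0 < a) (w : Wd) (z x : ℂ) :
    (∑ f : Lb, if f w = em then KO u h f a z x else 0) ≤ G a (z - fo u h w.1 x) := by
  have h1 : Tendsto (fun m => ∑ f : Lb, if f w = em then KF u h m f a z x else 0) atTop
      (𝓝 (∑ f : Lb, if f w = em then KO u h f a z x else 0)) := by
    refine tendsto_finsetSum _ fun f _ => ?_
    split_ifs
    · exact ((hord u h hu).2 a z x ha).1 f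
    · exact tendsto_const_nhds
  exact le_of_tendsto' h1 fun m => stepB hkfb hu m a ha w z x

/-! ### Blocks -/

theorem sub_UO (hord : OrdStatement) (hu : ∀ s, ‖u s‖ = 1) {a : ℝ} (ha : 0 < a) (k : ℕ) :
    ∀ w : Wd, Sub ((k + 1) * a) (UO u h a k w) := by
  induction k with
  | zero =>
    intro w
    refine ⟨?_, fun z x => ⟨?_, ?_⟩⟩
    · show Measurable fun p : ℂ × ℂ => ∑ f : Lb, if f w = em then KO u h f a p.1 p.2 else 0
      refine Finset.measurable_fun_sum _ fun f _ => ?_
      split_ifs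
      · exact (sub_KO hord hu f ha).1
      · exact measurable_const
    · show 0 ≤ ∑ f : Lb, if f w = em then KO u h f a z x else 0
      refine Finset.sum_nonneg fun f _ => ?_
      split_ifs
      · exact ((sub_KO hord hu f ha).2 z x).1
      · exact le_rfl
    · show (∑ f : Lb, if f w = em then KO u h f a z x else 0) ≤ _
      have e : ((0 : ℕ) + 1 : ℝ) * a = a := by simp
      rw [e, ← ((hord u h hu).2 a z x ha).2.2.2.1]
      refine Finset.sum_le_sum fun f _ => ?_
      split_ifs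
      · exact le_rfl
      · exact ((sub_KO hord hu f ha).2 z x).1
  | succ k ih =>
    intro w
    have hk : (0 : ℝ) < (k + 1) * a := by positivity
    have hS : ∀ f : Lb, Sub (a + (k + 1) * a)
        (fun z x => ∫ y, KO u h f a z y * UO u h a k (f w) y x) := fun f =>
      (sub_KO hord hu f ha).comp ha hk (ih (f w))
    refine ⟨?_, fun z x => ⟨?_, ?_⟩⟩
    · show Measurable fun p : ℂ × ℂ => ∑ f : Lb, ∫ y, KO u h f a p.1 y * UO u h a k (f w) y p.2
      exact Finset.measurable_fun_sum _ fun f _ => (hS f).1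
    · show 0 ≤ ∑ f : Lb, ∫ y, KO u h f a z y * UO u h a k (f w) y x
      exact Finset.sum_nonneg fun f _ => ((hS f).2 z x).1
    · show ∑ f : Lb, ∫ y, KO u h f a z y * UO u h a k (f w) y x ≤ _
      have e : (((k + 1 : ℕ) : ℝ) + 1) * a = a + (k + 1) * a := by
        push_cast
        ring
      rw [e, ← AEU.H44.G_ck ha hk z x, ← integral_finsetSum _ fun f _ =>
        (sub_KO hord hu f ha).int ha hk ((ih (f w)).meas_l x) (fun y => (ih (f w)).2 y x) z]
      refine integral_mono (integrable_finsetSum _ fun f _ =>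
        (sub_KO hord hu f ha).int ha hk ((ih (f w)).meas_l x) (fun y => (ih (f w)).2 y x) z)
        (AEU.H44.G_int2 ha hk z x) fun y => ?_
      show ∑ f : Lb, KO u h f a z y * UO u h a k (f w) y x
        ≤ G a (z - y) * G ((k + 1) * a) (y - x)
      rw [← ((hord u h hu).2 a z y ha).2.2.2.1, Finset.sum_mul]
      exact Finset.sum_le_sum fun f _ => mul_le_mul_of_nonneg_left ((ih (f w)).2 y x).2
        ((sub_KO hord hu f ha).2 z y).1

theorem UO_mono (hlst : LstStatement) (hord : OrdStatement) (hu : ∀ s, ‖u s‖ = 1) {a : ℝ}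
    (ha : 0 < a) (k : ℕ) : ∀ (v w : Wd) (z x : ℂ), v.1.Sublist w.1 →
      UO u h a k w z x ≤ UO u h a k v z x := by
  induction k with
  | zero =>
    intro v w z x hvw
    show (∑ f : Lb, if f w = em then KO u h f a z x else 0)
      ≤ ∑ f : Lb, if f v = em then KO u h f a z x else 0
    refine Finset.sum_le_sum fun f _ => ?_
    have hf := ((hord u h hu).2 a z x ha).2.1 f
    by_cases h0 : KO u h f a z x = 0
    · simp [h0]
    · have hR := ((hord u h hu).2 a z x ha).2.2.1 f h0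
      by_cases hw : f w = em
      · have h1 := hlst.2.2.2.2.1 f hR v w hvw
        rw [hw] at h1
        have h2 : f v = em := Subtype.ext (List.sublist_nil.1 h1)
        rw [if_pos hw, if_pos h2]
      · rw [if_neg hw]
        split_ifs
        · exact hf
        · exact le_rfl
  | succ k ih =>
    intro v w z x hvw
    have hk : (0 : ℝ) < (k + 1) * a := by positivity
    show ∑ f : Lb, ∫ y, KO u h f a z y * UO u h a k (f w) y x
      ≤ ∑ f : Lb, ∫ y, KO u h f a z y * UO u h a k (f v) y x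
    refine Finset.sum_le_sum fun f _ => ?_
    have hi : ∀ w, Integrable fun y => KO u h f a z y * UO u h a k (f w) y x := fun w =>
      (sub_KO hord hu f ha).int ha hk ((sub_UO hord hu ha k (f w)).meas_l x)
        (fun y => (sub_UO hord hu ha k (f w)).2 y x) z
    refine integral_mono (hi w) (hi v) fun y => ?_
    show KO u h f a z y * UO u h a k (f w) y x ≤ KO u h f a z y * UO u h a k (f v) y x
    by_cases h0 : KO u h f a z y = 0
    · simp [h0]
    · have hR := ((hord u h hu).2 a z y ha).2.2.1 f h0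
      exact mul_le_mul_of_nonneg_left (ih (f v) (f w) y x (hlst.2.2.2.2.1 f hR v w hvw))
        (((hord u h hu).2 a z y ha).2.1 f)

theorem UO_le (hkfb : KfbStatement) (hord : OrdStatement) (hu : ∀ s, ‖u s‖ = 1) {a : ℝ}
    (ha : 0 < a) (k : ℕ) : ∀ (w : Wd) (z x : ℂ),
      UO u h a k w z x ≤ G ((k + 1) * a) (z - fo u h w.1 x) := by
  induction k with
  | zero =>
    intro w z x
    have e : ((0 : ℕ) + 1 : ℝ) * a = a := by simp
    rw [e]
    exact limB hkfb hord hu ha w z x
  | succ k ih =>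
    intro w z x
    have hk : (0 : ℝ) < (k + 1) * a := by positivity
    have e : (((k + 1 : ℕ) : ℝ) + 1) * a = a + (k + 1) * a := by
      push_cast
      ring
    rw [e]
    refine le_trans ?_ (limA hkfb hord hu ha hk w z x)
    show ∑ f : Lb, ∫ y, KO u h f a z y * UO u h a k (f w) y x ≤ _
    refine Finset.sum_le_sum fun f _ => ?_
    refine integral_mono ((sub_KO hord hu f ha).int ha hk ((sub_UO hord hu ha k (f w)).meas_l x)
        (fun y => (sub_UO hord hu ha k (f w)).2 y x) z)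
      ((sub_KO hord hu f ha).int ha hk (G_meas _ _) (fun y => G_bd hk _ y) z) fun y => ?_
    exact mul_le_mul_of_nonneg_left (ih (f w) y x) ((sub_KO hord hu f ha).2 z y).1

/-- module UPO -/
theorem upo (hlst : LstStatement) (hkfb : KfbStatement) (hord : OrdStatement) :
    UpoStatement := by
  intro u h hu a ha k w
  refine ⟨(sub_UO hord hu ha k w).1, fun z x => ⟨((sub_UO hord hu ha k w).2 z x).1,
    fun v hv => ?_⟩⟩
  exact (UO_mono hlst hord hu ha k v w z x hv).trans (UO_le hkfb hord hu ha k v z x)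

end Pool.Agent.XQ.GI.H68
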